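import Pool.Agent.MP_a96b63_al.V.GB
import Pool.Agent.MP_a96b63_al.V.Three

set_option autoImplicit false

namespace Pool.Agent.Results.MP_a96b63_al.AllLarge
open Pool.Agent.MP_a96b63_al

/-- Every sufficiently large integer is the number of groups of some odd order that is not
divisible by the fourth power of a prime. -/
theorem result : ∃ K : ℕ, ∀ k : ℕ, K ≤ k → ∃ n : ℕ, Odd n ∧ (∀ p : ℕ, p.Prime → ¬ p ^ 4 ∣ n) ∧
    ∃ (G : Fin k → Type) (_inst : ∀ i, Group (G i)),
      (∀ i, Nat.card (G i) = n) ∧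
      (∀ i j, Nonempty (G i ≃* G j) → i = j) ∧
      ∀ (H : Type) [Group H], Nat.card H = n → ∃ i, Nonempty (H ≃* G i) := by
  obtain ⟨K, hK⟩ := Filter.eventually_atTop.1 H5.three
  refine ⟨K, fun k hk => ?_⟩
  obtain ⟨q1, q2, q3, hq, e⟩ := hK k hk
  obtain ⟨a, b, h⟩ := H5.exists_par hq
  obtain ⟨N, e', hN⟩ := H5.gnu_formula h
  obtain rfl : N = k := by omega
  exact ⟨_, (H5.par_free h).1, (H5.par_free h).2, hN⟩

end Pool.Agent.Results.MP_a96b63_al.AllLarge
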