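import Pool.Agent.H84D.Main

set_option autoImplicit false

namespace Pool.Agent.Results.MP_a96b63_al.DensityOne
open Pool.Agent.MP_a96b63_al Filter Topology

/-- Almost every positive integer is the number of groups of some squarefree order. -/
theorem result : Tendsto (fun N : ℕ =>
    ({y : ℕ | 1 ≤ y ∧ y ≤ N ∧ ∃ x : ℕ, Squarefree x ∧
      ∃ (G : Fin y → Type) (_inst : ∀ i, Group (G i)),
        (∀ i, Nat.card (G i) = x) ∧
        (∀ i j, Nonempty (G i ≃* G j) → i = j) ∧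
        ∀ (H : Type) [Group H], Nat.card H = x → ∃ i, Nonempty (H ≃* G i)}.ncard : ℝ) / N)
    atTop (𝓝 1) := by
  classical
  rw [Metric.tendsto_nhds]
  intro ε hε
  filter_upwards [Pool.Agent.H84D.density (half_pos hε), eventually_gt_atTop 0] with N h hN
  change dist (({y : ℕ | 1 ≤ y ∧ y ≤ N ∧ ∃ x : ℕ, Squarefree x ∧ IsGnu x y}.ncard : ℝ) / N) 1 < ε
  set A := {y : ℕ | 1 ≤ y ∧ y ≤ N ∧ ∃ x : ℕ, Squarefree x ∧ IsGnu x y}
  set B := {y : ℕ | 1 ≤ y ∧ y ≤ N ∧ ¬ ∃ x, Squarefree x ∧ IsGnu x y}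
  have hA : A.Finite := (Set.finite_Iic N).subset fun y hy => hy.2.1
  have hB : B.Finite := (Set.finite_Iic N).subset fun y hy => hy.2.1
  have hU : A ∪ B = Set.Icc 1 N := by
    ext y
    refine ⟨fun h => h.elim (fun h => ⟨h.1, h.2.1⟩) fun h => ⟨h.1, h.2.1⟩, fun h => ?_⟩
    by_cases h1 : ∃ x, Squarefree x ∧ IsGnu x y
    · exact Or.inl ⟨h.1, h.2, h1⟩
    · exact Or.inr ⟨h.1, h.2, h1⟩
  have hD : Disjoint A B := Set.disjoint_left.mpr fun y h1 h2 => h2.2.2 h1.2.2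
  have hc : A.ncard + B.ncard = N := by
    rw [← Set.ncard_union_eq hD hA hB, hU, ← Finset.coe_Icc, Set.ncard_coe_finset]
    simp
  have hc' : (A.ncard : ℝ) + B.ncard = N := by exact_mod_cast hc
  have hN' : (0 : ℝ) < N := by exact_mod_cast hN
  have e : (A.ncard : ℝ) / N - 1 = -((B.ncard : ℝ) / N) := by
    field_simp
    linarith
  rw [Real.dist_eq, e, abs_neg, abs_of_nonneg (by positivity), div_lt_iff₀ hN']
  nlinarith

end Pool.Agent.Results.MP_a96b63_al.DensityOne
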